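import Pool.Agent.Helper74.HG.Goals

/-!
# Project HG, packet SER: the topological zeta function of `f + w l`
-/

set_option autoImplicit false

namespace Pool.Agent.Helper80.HG.SER

open Pool.Agent.Helper74.HG

/-! ### Exponential sums -/

theorem ev_one : ExpVal (fun _ => 1) 1 :=
  ⟨1, fun _ => 1, fun _ => 1, fun _ => one_ne_zero, fun e _ => by simp, by simp⟩

theorem ev_neg {c : ℕ → ℂ} {v : ℤ} (h : ExpVal c v) : ExpVal (fun e => -c e) (-v) := by
  obtain ⟨r, m, a, ha, h1, h2⟩ := h
  refine ⟨r, fun i => -m i, a, ha, fun e he => ?_, ?_⟩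
  · simp only
    rw [h1 e he, ← Finset.sum_neg_distrib]
    refine Finset.sum_congr rfl fun i _ => ?_
    push_cast
    ring
  · rw [h2, ← Finset.sum_neg_distrib]

theorem ev_mul {c : ℕ → ℂ} {v : ℤ} (p : ℂ) (hp : p ≠ 0) (h : ExpVal c v) :
    ExpVal (fun e => p ^ e * c e) v := by
  obtain ⟨r, m, a, ha, h1, h2⟩ := h
  refine ⟨r, m, fun i => p * a i, fun i => mul_ne_zero hp (ha i), fun e he => ?_, h2⟩
  simp only
  rw [h1 e he, Finset.mul_sum]
  refine Finset.sum_congr rfl fun i _ => ?_
  rw [mul_pow]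
  ring

theorem ev_add {c c' : ℕ → ℂ} {v v' : ℤ} (h : ExpVal c v) (h' : ExpVal c' v') :
    ExpVal (fun e => c e + c' e) (v + v') := by
  obtain ⟨r, m, a, ha, h1, h2⟩ := h
  obtain ⟨r', m', a', ha', h1', h2'⟩ := h'
  refine ⟨r + r', Fin.append m m', Fin.append a a', ?_, ?_, ?_⟩
  · intro i
    refine Fin.addCases (fun i => ?_) (fun i => ?_) i
    · rw [Fin.append_left]
      exact ha i
    · rw [Fin.append_right]
      exact ha' i
  · intro e he
    simp only
    rw [h1 e he, h1' e he, Fin.sum_univ_add]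
    simp only [Fin.append_left, Fin.append_right]
  · rw [h2, h2', Fin.sum_univ_add]
    simp only [Fin.append_left, Fin.append_right]

/-! ### Series -/

/-- The shift of the numerical data. -/
def sh (d : ℕ × ℕ) : ℕ × ℕ := (d.1, d.2 + d.1)

theorem coeff_fac (q : ℂ) (d : ℕ × ℕ) (k : ℕ) : PowerSeries.coeff k (fac q d) =
    if k ≠ 0 ∧ d.1 ∣ k then (q - 1) * (q ^ (d.2 * (k / d.1)))⁻¹ else 0 := by
  rw [fac, PowerSeries.coeff_mk]

theorem resc (q : ℂ) (d : ℕ × ℕ) : PowerSeries.rescale q⁻¹ (fac q d) = fac q (sh d) := by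
  ext k
  rw [PowerSeries.coeff_rescale, coeff_fac, coeff_fac]
  simp only [sh]
  split_ifs with h
  · obtain ⟨h0, j, rfl⟩ := h
    have hd : 0 < d.1 := by
      apply Nat.pos_of_ne_zero
      intro h
      apply h0
      rw [h, Nat.zero_mul]
    rw [Nat.mul_div_cancel_left _ hd, inv_pow, add_mul, pow_add, mul_inv]
    ring
  · rw [mul_zero]

theorem coeff_one' (q : ℂ) (k : ℕ) : PowerSeries.coeff k (fac q (1, 1)) =
    if k ≠ 0 then (q - 1) * (q⁻¹) ^ k else 0 := by
  rw [coeff_fac]
  by_cases h : k = 0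
  · simp [h]
  · rw [if_pos ⟨h, one_dvd _⟩, if_pos h, one_mul, Nat.div_one, inv_pow]

theorem coeff_sq (q : ℂ) {k : ℕ} (hk : 1 ≤ k) : PowerSeries.coeff k (fac q (1, 1) ^ 2) =
    ((k : ℂ) - 1) * (q - 1) ^ 2 * (q⁻¹) ^ k := by
  rw [pow_two, PowerSeries.coeff_mul,
    Finset.Nat.sum_antidiagonal_eq_sum_range_succ
      (fun i j => PowerSeries.coeff i (fac q (1, 1)) * PowerSeries.coeff j (fac q (1, 1))) k]
  obtain ⟨k, rfl⟩ := Nat.exists_eq_add_of_le' hk
  rw [Finset.sum_range_succ, Finset.sum_range_succ']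
  have h1 : ∀ i ∈ Finset.range k, PowerSeries.coeff (i + 1) (fac q (1, 1)) *
      PowerSeries.coeff (k + 1 - (i + 1)) (fac q (1, 1)) = (q - 1) ^ 2 * (q⁻¹) ^ (k + 1) := by
    intro i hi
    rw [Finset.mem_range] at hi
    rw [coeff_one', coeff_one', if_pos (by omega), if_pos (by omega)]
    have h2 : (q⁻¹) ^ (k + 1) = (q⁻¹) ^ (i + 1) * (q⁻¹) ^ (k + 1 - (i + 1)) := by
      rw [← pow_add]
      congr 1
      omega
    rw [h2]
    ring
  rw [Finset.sum_congr rfl h1, Finset.sum_const, Finset.card_range, nsmul_eq_mul,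
    coeff_one', coeff_one' q (k + 1 - (k + 1))]
  simp only [ne_eq, not_true_eq_false, if_false, zero_mul, Nat.sub_self, mul_zero, add_zero]
  push_cast
  ring

theorem coeff_W (q : ℂ) (k : ℕ) :
    PowerSeries.coeff k (PowerSeries.C (q - 1) * fac q (1, 1) + fac q (1, 1) ^ 2) =
    (k : ℂ) * (q - 1) ^ 2 * (q⁻¹) ^ k := by
  rw [map_add, PowerSeries.coeff_C_mul]
  rcases Nat.eq_zero_or_pos k with rfl | hk
  · have h : PowerSeries.constantCoeff (fac q (1, 1)) = 0 := by
      rw [← PowerSeries.coeff_zero_eq_constantCoeff_apply, coeff_one', if_neg (by omega)]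
    simp [h]
  · rw [coeff_sq q hk, coeff_one', if_pos (by omega)]
    ring

/-- The identity of power series. -/
theorem key (q : ℂ) (hq : q ≠ 0) (n : ℕ) (c c' : ℕ → ℂ) (h0 : c 0 = 0) (h0' : c' 0 = 0)
    (h : ∀ m : ℕ, 1 ≤ m → c' m = q ^ m * (((m : ℂ) - 1) * (q - 1) ^ 2 * q ^ (n * m) + q * c m -
      ∑ k ∈ Finset.range m, ((m : ℂ) - k) * (q - 1) ^ 2 * q ^ (n * (m - k)) * c k))
    (ζ : PowerSeries ℂ) (hζ : ∀ m, c m / q ^ (n * m) = PowerSeries.coeff m ζ) (m : ℕ) :
    c' m / q ^ ((n + 2) * m) = PowerSeries.coeff m (fac q (1, 1) ^ 2 +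
      (PowerSeries.C q * PowerSeries.rescale q⁻¹ ζ -
        PowerSeries.rescale q⁻¹ ζ * (PowerSeries.C (q - 1) * fac q (1, 1) + fac q (1, 1) ^ 2))) := by
  rw [map_add, map_sub, PowerSeries.coeff_C_mul, PowerSeries.coeff_rescale, PowerSeries.coeff_mul,
    Finset.Nat.sum_antidiagonal_eq_sum_range_succ
      (fun i j => PowerSeries.coeff i (PowerSeries.rescale q⁻¹ ζ) *
        PowerSeries.coeff j (PowerSeries.C (q - 1) * fac q (1, 1) + fac q (1, 1) ^ 2)) m]
  have h1 : ∀ k ∈ Finset.range m.succ, PowerSeries.coeff k (PowerSeries.rescale q⁻¹ ζ) *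
      PowerSeries.coeff (m - k) (PowerSeries.C (q - 1) * fac q (1, 1) + fac q (1, 1) ^ 2) =
      (q⁻¹) ^ m * (((m : ℂ) - k) * (q - 1) ^ 2 * (c k / q ^ (n * k))) := by
    intro k hk
    rw [Finset.mem_range] at hk
    rw [coeff_W, PowerSeries.coeff_rescale, ← hζ k, Nat.cast_sub (by omega)]
    have h2 : (q⁻¹) ^ m = (q⁻¹) ^ k * (q⁻¹) ^ (m - k) := by
      rw [← pow_add]
      congr 1
      omega
    rw [h2]
    ring
  rw [Finset.sum_congr rfl h1, Finset.sum_range_succ, ← hζ m]
  rcases Nat.eq_zero_or_pos m with rfl | hm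
  · have h3 : PowerSeries.coeff 0 (fac q (1, 1) ^ 2) = 0 := by
      have h : PowerSeries.constantCoeff (fac q (1, 1)) = 0 := by
        rw [← PowerSeries.coeff_zero_eq_constantCoeff_apply, coeff_one', if_neg (by omega)]
      simp [h]
    rw [h3, h0, h0']
    simp
  · rw [coeff_sq q hm, h m hm, sub_self]
    have h4 : ∀ k ∈ Finset.range m, (q⁻¹) ^ m * (((m : ℂ) - k) * (q - 1) ^ 2 * (c k / q ^ (n * k))) =
        (q⁻¹) ^ m / q ^ (n * m) * (((m : ℂ) - k) * (q - 1) ^ 2 * q ^ (n * (m - k)) * c k) := by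
      intro k hk
      rw [Finset.mem_range] at hk
      have h5 : q ^ (n * m) = q ^ (n * k) * q ^ (n * (m - k)) := by
        rw [← pow_add, ← mul_add]
        congr 2
        omega
      rw [h5]
      have h6 : q ^ (n * k) ≠ 0 := pow_ne_zero _ hq
      have h7 : q ^ (n * (m - k)) ≠ 0 := pow_ne_zero _ hq
      field_simp
    rw [Finset.sum_congr rfl h4, ← Finset.mul_sum]
    have h8 : q ^ ((n + 2) * m) = q ^ (n * m) * (q ^ m * q ^ m) := by
      rw [← pow_add, ← pow_add]
      congr 1
      ring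
    rw [h8, inv_pow]
    have h6 : q ^ (n * m) ≠ 0 := pow_ne_zero _ hq
    have h7 : q ^ m ≠ 0 := pow_ne_zero _ hq
    field_simp
    ring

/-! ### Strata -/

/-- The first stratum. -/
def S0 : Stratum := ⟨fun _ _ => 1, 1, [(1, 1), (1, 1)]⟩

/-- `(q c, χ, d')`. -/
noncomputable def SA (S : Stratum) : Stratum :=
  ⟨fun p e => (p : ℂ) ^ e * S.c p e, S.chi, S.data.map sh⟩

/-- `(-(q-1) c, 0, (1,1) :: d')`. -/
noncomputable def SB (S : Stratum) : Stratum :=
  ⟨fun p e => -((p : ℂ) ^ e * S.c p e) + S.c p e, 0, (1, 1) :: S.data.map sh⟩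

/-- `(-c, -χ, (1,1) :: (1,1) :: d')`. -/
noncomputable def SD (S : Stratum) : Stratum :=
  ⟨fun p e => -S.c p e, -S.chi, (1, 1) :: (1, 1) :: S.data.map sh⟩

/-- The new list. -/
noncomputable def NL (L : List Stratum) : List Stratum :=
  S0 :: (L.map SA ++ (L.map SB ++ L.map SD))

theorem rescC (q c : ℂ) : PowerSeries.rescale q (PowerSeries.C c) = PowerSeries.C c := by
  ext k
  rw [PowerSeries.coeff_rescale, PowerSeries.coeff_C]
  by_cases h : k = 0
  · simp [h]
  · simp [h]

theorem resc_ser (S : Stratum) (p e : ℕ) :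
    PowerSeries.rescale ((p : ℂ) ^ e)⁻¹ (S.ser p e) =
      PowerSeries.C (S.c p e) * ((S.data.map sh).map (fac ((p : ℂ) ^ e))).prod := by
  rw [Stratum.ser, map_mul, rescC, map_list_prod, List.map_map, List.map_map]
  congr 3
  funext d
  exact resc _ d

theorem ser_sum (L : List Stratum) (p e : ℕ) :
    ((NL L).map fun S => S.ser p e).sum =
      fac ((p : ℂ) ^ e) (1, 1) ^ 2 +
      (PowerSeries.C ((p : ℂ) ^ e) *
        PowerSeries.rescale ((p : ℂ) ^ e)⁻¹ (L.map fun S => S.ser p e).sum -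
        PowerSeries.rescale ((p : ℂ) ^ e)⁻¹ (L.map fun S => S.ser p e).sum *
        (PowerSeries.C ((p : ℂ) ^ e - 1) * fac ((p : ℂ) ^ e) (1, 1) +
          fac ((p : ℂ) ^ e) (1, 1) ^ 2)) := by
  set q : ℂ := (p : ℂ) ^ e with hq
  have h1 : ∀ L : List Stratum, ((L.map SA ++ (L.map SB ++ L.map SD)).map fun S => S.ser p e).sum =
      (PowerSeries.C q * PowerSeries.rescale q⁻¹ (L.map fun S => S.ser p e).sum -
        PowerSeries.rescale q⁻¹ (L.map fun S => S.ser p e).sum *
        (PowerSeries.C (q - 1) * fac q (1, 1) + fac q (1, 1) ^ 2)) := by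
    intro L
    induction L with
    | nil => simp
    | cons S L ih =>
      simp only [List.map_append, List.sum_append, List.map_cons, List.sum_cons] at ih ⊢
      have hA : (SA S).ser p e = PowerSeries.C q * PowerSeries.rescale q⁻¹ (S.ser p e) := by
        rw [hq, resc_ser, Stratum.ser, SA]
        simp only [map_mul]
        ring
      have hB : (SB S).ser p e = - (PowerSeries.rescale q⁻¹ (S.ser p e) *
          (PowerSeries.C (q - 1) * fac q (1, 1))) := by
        rw [hq, resc_ser, Stratum.ser, SB]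
        simp only [map_mul, map_add, map_neg, map_sub, map_one, List.map_cons, List.prod_cons]
        ring
      have hD : (SD S).ser p e = - (PowerSeries.rescale q⁻¹ (S.ser p e) * fac q (1, 1) ^ 2) := by
        rw [hq, resc_ser, Stratum.ser, SD]
        simp only [map_neg, List.map_cons, List.prod_cons]
        ring
      rw [hA, hB, hD, map_add]
      linear_combination ih
  rw [NL, List.map_cons, List.sum_cons, h1 L, Stratum.ser, S0]
  simp only [map_one, one_mul, List.map_cons, List.map_nil, List.prod_cons, List.prod_nil, mul_one]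
  rw [pow_two]

/-! ### The rational functions -/

theorem shR_X : shR RatFunc.X = RatFunc.X + 1 := by
  rw [shR, RatFunc.coe_mapRingHom_eq_coe_map, RatFunc.map_apply, RatFunc.num_X, RatFunc.denom_X]
  simp [RatFunc.algebraMap_X]

theorem shR_fac (d : ℕ × ℕ) :
    shR (((d.1 : RatFunc ℂ) * RatFunc.X + (d.2 : RatFunc ℂ))⁻¹) =
      ((((sh d).1 : ℕ) : RatFunc ℂ) * RatFunc.X + (((sh d).2 : ℕ) : RatFunc ℂ))⁻¹ := by
  rw [map_inv₀, map_add, map_mul, map_natCast, map_natCast, shR_X]
  simp only [sh]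
  push_cast
  congr 1
  ring

theorem shR_rat (S : Stratum) : shR S.rat = (S.chi : RatFunc ℂ) *
    ((S.data.map sh).map fun d => ((d.1 : RatFunc ℂ) * RatFunc.X + (d.2 : RatFunc ℂ))⁻¹).prod := by
  rw [Stratum.rat, map_mul, map_intCast, map_list_prod, List.map_map, List.map_map]
  congr 3
  funext d
  exact shR_fac d

theorem rat_sum (L : List Stratum) :
    ((NL L).map Stratum.rat).sum = stabZ (L.map Stratum.rat).sum := by
  have h1 : ∀ L : List Stratum, ((L.map SA ++ (L.map SB ++ L.map SD)).map Stratum.rat).sum =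
      (1 - ((RatFunc.X + 1) ^ 2)⁻¹) * shR (L.map Stratum.rat).sum := by
    intro L
    induction L with
    | nil => simp
    | cons S L ih =>
      simp only [List.map_append, List.sum_append, List.map_cons, List.sum_cons] at ih ⊢
      have hA : (SA S).rat = shR S.rat := by
        rw [shR_rat, Stratum.rat, SA]
      have hB : (SB S).rat = 0 := by
        rw [Stratum.rat, SB]
        simp
      have hD : (SD S).rat = - (((RatFunc.X + 1) ^ 2)⁻¹ * shR S.rat) := by
        rw [shR_rat, Stratum.rat, SD]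
        simp only [List.map_cons, List.prod_cons, Nat.cast_one, one_mul, Int.cast_neg]
        rw [pow_two, mul_inv]
        ring
      rw [hA, hB, hD, map_add]
      linear_combination ih
  rw [NL, List.map_cons, List.sum_cons, h1 L, stabZ, Stratum.rat, S0]
  simp only [List.map_cons, List.map_nil, List.prod_cons, List.prod_nil, Nat.cast_one, one_mul,
    mul_one, Int.cast_one]
  rw [pow_two, mul_inv]

/-! ### The arcs of order `0` -/

theorem cnt_zero (K : Type) [Field K] {σ : Type} (f : MvPolynomial σ ℤ)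
    (hf : MvPolynomial.constantCoeff f = 0) : cnt K f 0 = 0 := by
  have ht : tt K 0 = 0 := by
    rw [tt, Ideal.Quotient.eq_zero_iff_mem, zero_add, pow_one]
    exact Ideal.mem_span_singleton_self _
  have h : Jet K f 0 = ∅ := by
    rw [Set.eq_empty_iff_forall_notMem]
    rintro x ⟨h1, _, h3⟩
    apply h3
    have hx : x = fun _ => 0 := by
      funext i
      have h4 := h1 i
      rw [ht, Ideal.span_singleton_eq_bot.2 rfl, Ideal.mem_bot] at h4
      exact h4
    rw [hx]
    have h5 := MvPolynomial.aeval_zero' (R := ℤ) (S₁ := Tr K 0) f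
    rw [h5, hf, map_zero]
  rw [cnt, h, Set.ncard_empty]

theorem cc_stab {σ : Type} (f : MvPolynomial σ ℤ) :
    MvPolynomial.constantCoeff (stab1 f) = MvPolynomial.constantCoeff f := by
  rw [stab1, map_add, map_mul, MvPolynomial.constantCoeff_X, zero_mul, add_zero,
    MvPolynomial.constantCoeff_rename]

theorem t (hc : CNT) : Pool.Agent.Helper74.HG.SER := by
  intro σ _ f hf Z hZ
  obtain ⟨L, p₀, hpos, hL, hZ'⟩ := hZ
  refine ⟨NL L, p₀, ?_, ?_, ?_⟩
  · have hsh : ∀ S ∈ L, ∀ d ∈ S.data.map sh, 0 < d.1 ∧ 0 < d.2 := by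
      intro S hS d hd
      rw [List.mem_map] at hd
      obtain ⟨d', hd', rfl⟩ := hd
      have h := hpos S hS d' hd'
      exact ⟨h.1, Nat.add_pos_left h.2 _⟩
    intro S hS d hd
    rw [NL, List.mem_cons, List.mem_append, List.mem_append, List.mem_map, List.mem_map,
      List.mem_map] at hS
    rcases hS with rfl | ⟨S', hS', rfl⟩ | ⟨S', hS', rfl⟩ | ⟨S', hS', rfl⟩
    · simp only [S0, List.mem_cons, List.not_mem_nil, or_false, or_self] at hd
      rw [hd]
      exact ⟨one_pos, one_pos⟩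
    · exact hsh S' hS' d hd
    · simp only [SB, List.mem_cons] at hd
      rcases hd with rfl | hd
      · exact ⟨one_pos, one_pos⟩
      · exact hsh S' hS' d hd
    · simp only [SD, List.mem_cons] at hd
      rcases hd with rfl | rfl | hd
      · exact ⟨one_pos, one_pos⟩
      · exact ⟨one_pos, one_pos⟩
      · exact hsh S' hS' d hd
  · intro p hp hpp
    obtain ⟨hE, hS⟩ := hL p hpp
    have hp0 : (p : ℂ) ≠ 0 := Nat.cast_ne_zero.2 hp.out.ne_zero
    refine ⟨?_, ?_⟩
    · intro S hS
      rw [NL, List.mem_cons, List.mem_append, List.mem_append, List.mem_map, List.mem_map,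
        List.mem_map] at hS
      rcases hS with rfl | ⟨S', hS', rfl⟩ | ⟨S', hS', rfl⟩ | ⟨S', hS', rfl⟩
      · exact ev_one
      · exact ev_mul _ hp0 (hE S' hS')
      · have h := ev_add (ev_neg (ev_mul _ hp0 (hE S' hS'))) (hE S' hS')
        rw [neg_add_cancel] at h
        exact h
      · exact ev_neg (hE S' hS')
    · intro e m he
      have hcard : Nat.card (GaloisField p e) = p ^ e := GaloisField.card p e (by omega)
      have hfin : Finite (GaloisField p e) := Nat.finite_of_card_ne_zero (by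
        rw [hcard]
        exact pow_ne_zero _ hp.out.ne_zero)
      have hσ : Fintype.card (Option (Option σ)) = Fintype.card σ + 2 := by
        rw [Fintype.card_option, Fintype.card_option]
      rw [hσ, ser_sum]
      refine key ((p : ℂ) ^ e) (pow_ne_zero _ hp0) (Fintype.card σ)
        (fun m => (cnt (GaloisField p e) f m : ℂ))
        (fun m => (cnt (GaloisField p e) (stab1 f) m : ℂ)) ?_ ?_ ?_ _ (fun m => hS e m he) m
      · rw [cnt_zero _ f hf, Nat.cast_zero]
      · rw [cnt_zero _ (stab1 f) (by rw [cc_stab, hf]), Nat.cast_zero]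
      · intro m hm
        have h := hc (GaloisField p e) σ f hf m hm
        rw [hcard] at h
        have h2 : ((cnt (GaloisField p e) (stab1 f) m : ℤ) : ℂ) = _ := congrArg (Int.cast) h
        push_cast at h2
        exact h2
  · rw [rat_sum, hZ']

end Pool.Agent.Helper80.HG.SER
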