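import Pool.Agent.Helper74.HG.GoalsC
import Pool.Agent.Helper80.HG.SER

/-!
# Project HG, packet SE2: the topological zeta function of `f + w l`, complex coefficients
-/

set_option autoImplicit false

namespace Pool.Agent.Helper80.HG.SE2

open Pool.Agent.Helper74.HG Pool.Agent.Helper80.HG.SER

/-- `(χ, d')`. -/
def sa (S : Str) : Str := (S.1, S.2.map sh)

/-- `(0, (1,1) :: d')`. -/
def sb (S : Str) : Str := (0, (1, 1) :: S.2.map sh)

/-- `(-χ, (1,1) :: (1,1) :: d')`. -/
def sd (S : Str) : Str := (-S.1, (1, 1) :: (1, 1) :: S.2.map sh)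

/-- The new list. -/
def nl (L : List Str) : List Str := (1, [(1, 1), (1, 1)]) :: (L.map sa ++ (L.map sb ++ L.map sd))

/-- The new weights. -/
noncomputable def ta (p : ℂ) (T : (ℕ → ℂ) × Str) : (ℕ → ℂ) × Str :=
  (fun e => p ^ e * T.1 e, sa T.2)

/-- The new weights. -/
noncomputable def tb (p : ℂ) (T : (ℕ → ℂ) × Str) : (ℕ → ℂ) × Str :=
  (fun e => -(p ^ e * T.1 e) + T.1 e, sb T.2)

/-- The new weights. -/
noncomputable def td (T : (ℕ → ℂ) × Str) : (ℕ → ℂ) × Str :=
  (fun e => -T.1 e, sd T.2)

/-- The new list with weights. -/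
noncomputable def nm (p : ℂ) (M : List ((ℕ → ℂ) × Str)) : List ((ℕ → ℂ) × Str) :=
  (fun _ => 1, (1, [(1, 1), (1, 1)])) :: (M.map (ta p) ++ (M.map (tb p) ++ M.map td))

/-- The series of a stratum. -/
noncomputable def se (q : ℂ) (e : ℕ) (T : (ℕ → ℂ) × Str) : PowerSeries ℂ :=
  PowerSeries.C (T.1 e) * (T.2.2.map (fac q)).prod

theorem resc_se (q : ℂ) (e : ℕ) (T : (ℕ → ℂ) × Str) :
    PowerSeries.rescale q⁻¹ (se q e T) =
      PowerSeries.C (T.1 e) * ((T.2.2.map sh).map (fac q)).prod := by
  rw [se, map_mul, rescC, map_list_prod, List.map_map, List.map_map]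
  congr 3
  funext d
  exact resc _ d

theorem se_sum (p : ℂ) (e : ℕ) (M : List ((ℕ → ℂ) × Str)) :
    ((nm p M).map fun T => se (p ^ e) e T).sum =
      fac (p ^ e) (1, 1) ^ 2 +
      (PowerSeries.C (p ^ e) *
        PowerSeries.rescale (p ^ e)⁻¹ (M.map fun T => se (p ^ e) e T).sum -
        PowerSeries.rescale (p ^ e)⁻¹ (M.map fun T => se (p ^ e) e T).sum *
        (PowerSeries.C (p ^ e - 1) * fac (p ^ e) (1, 1) + fac (p ^ e) (1, 1) ^ 2)) := by
  set q : ℂ := p ^ e with hq
  have h1 : ∀ M : List ((ℕ → ℂ) × Str),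
      ((M.map (ta p) ++ (M.map (tb p) ++ M.map td)).map fun T => se q e T).sum =
      (PowerSeries.C q * PowerSeries.rescale q⁻¹ (M.map fun T => se q e T).sum -
        PowerSeries.rescale q⁻¹ (M.map fun T => se q e T).sum *
        (PowerSeries.C (q - 1) * fac q (1, 1) + fac q (1, 1) ^ 2)) := by
    intro M
    induction M with
    | nil => simp
    | cons S M ih =>
      simp only [List.map_append, List.sum_append, List.map_cons, List.sum_cons] at ih ⊢
      have hA : se q e (ta p S) = PowerSeries.C q * PowerSeries.rescale q⁻¹ (se q e S) := by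
        rw [resc_se, se, ta, sa, hq]
        simp only [map_mul]
        ring
      have hB : se q e (tb p S) = - (PowerSeries.rescale q⁻¹ (se q e S) *
          (PowerSeries.C (q - 1) * fac q (1, 1))) := by
        rw [resc_se, se, tb, sb, hq]
        simp only [map_mul, map_add, map_neg, map_sub, map_one, List.map_cons, List.prod_cons]
        ring
      have hD : se q e (td S) = - (PowerSeries.rescale q⁻¹ (se q e S) * fac q (1, 1) ^ 2) := by
        rw [resc_se, se, td, sd]
        simp only [map_neg, List.map_cons, List.prod_cons]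
        ring
      rw [hA, hB, hD, map_add]
      linear_combination ih
  rw [nm, List.map_cons, List.sum_cons, h1 M, se]
  simp only [map_one, one_mul, List.map_cons, List.map_nil, List.prod_cons, List.prod_nil, mul_one]
  rw [pow_two]

theorem shR_ratS (S : Str) : shR (ratS S) = (S.1 : RatFunc ℂ) *
    ((S.2.map sh).map fun d => ((d.1 : RatFunc ℂ) * RatFunc.X + (d.2 : RatFunc ℂ))⁻¹).prod := by
  rw [ratS, map_mul, map_intCast, map_list_prod, List.map_map, List.map_map]
  congr 3
  funext d
  exact shR_fac d

theorem ratS_sum (L : List Str) :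
    ((nl L).map ratS).sum = stabZ (L.map ratS).sum := by
  have h1 : ∀ L : List Str, ((L.map sa ++ (L.map sb ++ L.map sd)).map ratS).sum =
      (1 - ((RatFunc.X + 1) ^ 2)⁻¹) * shR (L.map ratS).sum := by
    intro L
    induction L with
    | nil => simp
    | cons S L ih =>
      simp only [List.map_append, List.sum_append, List.map_cons, List.sum_cons] at ih ⊢
      have hA : ratS (sa S) = shR (ratS S) := by
        rw [shR_ratS, ratS, sa]
      have hB : ratS (sb S) = 0 := by
        rw [ratS, sb]
        simp
      have hD : ratS (sd S) = - (((RatFunc.X + 1) ^ 2)⁻¹ * shR (ratS S)) := by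
        rw [shR_ratS, ratS, sd]
        simp only [List.map_cons, List.prod_cons, Nat.cast_one, one_mul, Int.cast_neg]
        rw [pow_two, mul_inv]
        ring
      rw [hA, hB, hD, map_add]
      linear_combination ih
  rw [nl, List.map_cons, List.sum_cons, h1 L, stabZ, ratS]
  simp only [List.map_cons, List.map_nil, List.prod_cons, List.prod_nil, Nat.cast_one, one_mul,
    mul_one, Int.cast_one]
  rw [pow_two, mul_inv]

theorem cntK_zero (K : Type) [Field K] {σ : Type} (f : MvPolynomial σ K)
    (hf : MvPolynomial.constantCoeff f = 0) : cntK K f 0 = 0 := by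
  have ht : tt K 0 = 0 := by
    rw [tt, Ideal.Quotient.eq_zero_iff_mem, zero_add, pow_one]
    exact Ideal.mem_span_singleton_self _
  have h : JetK K f 0 = ∅ := by
    rw [Set.eq_empty_iff_forall_notMem]
    rintro x ⟨h1, _, h3⟩
    apply h3
    have hx : x = fun _ => 0 := by
      funext i
      have h4 := h1 i
      rw [ht, Ideal.span_singleton_eq_bot.2 rfl, Ideal.mem_bot] at h4
      exact h4
    rw [hx]
    have h5 := MvPolynomial.aeval_zero' (R := K) (S₁ := Tr K 0) f
    rw [h5, hf, map_zero]
  rw [cntK, h, Set.ncard_empty]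

theorem cc_stabK {K : Type} [Field K] {σ : Type} (f : MvPolynomial σ K) :
    MvPolynomial.constantCoeff (stabK f) = MvPolynomial.constantCoeff f := by
  rw [stabK, map_add, map_mul, MvPolynomial.constantCoeff_X, zero_mul, add_zero,
    MvPolynomial.constantCoeff_rename]

/-- `f + w l` over any ring. -/
noncomputable def stR {R : Type} [CommRing R] {σ : Type} (f : MvPolynomial σ R) :
    MvPolynomial (Option (Option σ)) R :=
  MvPolynomial.rename (fun i => some (some i)) f + MvPolynomial.X none * MvPolynomial.X (some none)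

theorem map_stR {R S : Type} [CommRing R] [CommRing S] (φ : R →+* S) {σ : Type}
    (f : MvPolynomial σ R) : MvPolynomial.map φ (stR f) = stR (MvPolynomial.map φ f) := by
  rw [stR, stR, map_add, map_mul, MvPolynomial.map_X, MvPolynomial.map_X, MvPolynomial.map_rename]

theorem t (hc : CNK) : Pool.Agent.Helper74.HG.SE2 := by
  intro σ _ f hf Z hZ
  obtain ⟨s, g, L, hg, hpos, hF, hZ'⟩ := hZ
  have hg0 : MvPolynomial.constantCoeff g = 0 := by
    rw [← hg, MvPolynomial.constantCoeff_map] at hf
    exact Subtype.ext hf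
  refine ⟨s, stR g, nl L, ?_, ?_, ?_, ?_⟩
  · rw [map_stR, hg]
    rfl
  · have hsh : ∀ S ∈ L, ∀ d ∈ S.2.map sh, 0 < d.1 ∧ 0 < d.2 := by
      intro S hS d hd
      rw [List.mem_map] at hd
      obtain ⟨d', hd', rfl⟩ := hd
      have h := hpos S hS d' hd'
      exact ⟨h.1, Nat.add_pos_left h.2 _⟩
    intro S hS d hd
    rw [nl, List.mem_cons, List.mem_append, List.mem_append, List.mem_map, List.mem_map,
      List.mem_map] at hS
    rcases hS with rfl | ⟨S', hS', rfl⟩ | ⟨S', hS', rfl⟩ | ⟨S', hS', rfl⟩
    · simp only [List.mem_cons, List.not_mem_nil, or_false, or_self] at hd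
      rw [hd]
      exact ⟨one_pos, one_pos⟩
    · exact hsh S' hS' d hd
    · simp only [sb, List.mem_cons] at hd
      rcases hd with rfl | hd
      · exact ⟨one_pos, one_pos⟩
      · exact hsh S' hS' d hd
    · simp only [sd, List.mem_cons] at hd
      rcases hd with rfl | rfl | hd
      · exact ⟨one_pos, one_pos⟩
      · exact ⟨one_pos, one_pos⟩
      · exact hsh S' hS' d hd
  · intro K _ _ ψ
    obtain ⟨M, hM, hE, hS⟩ := hF K ψ
    have hK0 : ((Nat.card K : ℕ) : ℂ) ≠ 0 := Nat.cast_ne_zero.2 Nat.card_pos.ne'
    refine ⟨nm (Nat.card K) M, ?_, ?_, ?_⟩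
    · rw [nm, nl, ← hM]
      simp only [List.map_cons, List.map_append, List.map_map]
      rfl
    · intro T hT
      rw [nm, List.mem_cons, List.mem_append, List.mem_append, List.mem_map, List.mem_map,
        List.mem_map] at hT
      rcases hT with rfl | ⟨T', hT', rfl⟩ | ⟨T', hT', rfl⟩ | ⟨T', hT', rfl⟩
      · exact ev_one
      · exact ev_mul _ hK0 (hE T' hT')
      · have h := ev_add (ev_neg (ev_mul _ hK0 (hE T' hT'))) (hE T' hT')
        rw [neg_add_cancel] at h
        exact h
      · exact ev_neg (hE T' hT')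
    · intro E _ _ _ m
      have hfd : Module.Finite K E := Module.Finite.of_finite
      have hcard : Nat.card E = Nat.card K ^ Module.finrank K E :=
        Module.natCard_eq_pow_finrank
      have hcard' : ((Nat.card E : ℕ) : ℂ) = ((Nat.card K : ℕ) : ℂ) ^ Module.finrank K E := by
        rw [hcard]
        push_cast
        rfl
      have hσ : Fintype.card (Option (Option σ)) = Fintype.card σ + 2 := by
        rw [Fintype.card_option, Fintype.card_option]
      have hcc : MvPolynomial.constantCoeff
          (MvPolynomial.map (algebraMap K E) (MvPolynomial.map ψ g)) = 0 := by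
        rw [MvPolynomial.constantCoeff_map, MvPolynomial.constantCoeff_map, hg0, map_zero, map_zero]
      have hst : MvPolynomial.map (algebraMap K E) (MvPolynomial.map ψ (stR g)) =
          stabK (MvPolynomial.map (algebraMap K E) (MvPolynomial.map ψ g)) := by
        rw [map_stR, map_stR]
        rfl
      have hS' := hS E
      rw [hst, hσ, hcard']
      have h2 := se_sum (Nat.card K) (Module.finrank K E) M
      simp only [se] at h2
      rw [h2]
      refine key (((Nat.card K : ℕ) : ℂ) ^ Module.finrank K E) (pow_ne_zero _ hK0)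
        (Fintype.card σ)
        (fun m => (cntK E (MvPolynomial.map (algebraMap K E) (MvPolynomial.map ψ g)) m : ℂ))
        (fun m => (cntK E (stabK (MvPolynomial.map (algebraMap K E)
          (MvPolynomial.map ψ g))) m : ℂ)) ?_ ?_ ?_ _ (fun m => ?_) m
      · rw [cntK_zero _ _ hcc, Nat.cast_zero]
      · rw [cntK_zero _ _ (by rw [cc_stabK, hcc]), Nat.cast_zero]
      · intro m hm
        have h := hc E σ _ hcc m hm
        rw [hcard] at h
        have h2 : ((cntK E (stabK (MvPolynomial.map (algebraMap K E)
          (MvPolynomial.map ψ g))) m : ℤ) : ℂ) = _ := congrArg (Int.cast) h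
        push_cast at h2
        exact h2
      · have h3 := hS' m
        rw [hcard'] at h3
        exact h3
  · rw [ratS_sum, hZ']

end Pool.Agent.Helper80.HG.SE2
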