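import Pool.Agent.Helper74.HG.Goals

/-!
# Project HG, packet WL: the number of pairs with a given value of `c + w l`
-/

set_option autoImplicit false

namespace Pool.Agent.Helper80.HG.WL

open Pool.Agent.Helper74.HG

section Basic

variable (K : Type) [Field K] (m : ℕ)

/-- The ideal of the `j`-th power of the class of `X`. -/
noncomputable abbrev I (j : ℕ) : Ideal (Tr K m) := Ideal.span {tt K m ^ j}

variable {K m}

theorem mk_surj (y : Tr K m) : ∃ p : Polynomial K,
    (Ideal.Quotient.mk (Ideal.span {(Polynomial.X : Polynomial K) ^ (m + 1)}) p : Tr K m) = y :=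
  Ideal.Quotient.mk_surjective y

theorem mk_zero (p : Polynomial K) :
    (Ideal.Quotient.mk (Ideal.span {(Polynomial.X : Polynomial K) ^ (m + 1)}) p : Tr K m) = 0 ↔
      Polynomial.X ^ (m + 1) ∣ p := by
  rw [Ideal.Quotient.eq_zero_iff_mem, Ideal.mem_span_singleton]

theorem tt_pow (j : ℕ) : tt K m ^ j =
    Ideal.Quotient.mk (Ideal.span {(Polynomial.X : Polynomial K) ^ (m + 1)}) (Polynomial.X ^ j) := by
  rw [map_pow]
  rfl

theorem mk_mem {j : ℕ} (hj : j ≤ m + 1) (p : Polynomial K) :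
    (Ideal.Quotient.mk (Ideal.span {(Polynomial.X : Polynomial K) ^ (m + 1)}) p : Tr K m) ∈ I K m j ↔
      Polynomial.X ^ j ∣ p := by
  rw [I, Ideal.mem_span_singleton, tt_pow]
  constructor
  · rintro ⟨a, ha⟩
    obtain ⟨r, rfl⟩ := mk_surj a
    rw [← map_mul, ← sub_eq_zero, ← map_sub, mk_zero] at ha
    have h1 : Polynomial.X ^ j ∣ p - Polynomial.X ^ j * r := (pow_dvd_pow _ hj).trans ha
    have h2 := dvd_add h1 (dvd_mul_right (Polynomial.X ^ j : Polynomial K) r)
    rwa [sub_add_cancel] at h2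
  · rintro ⟨r, rfl⟩
    exact ⟨Ideal.Quotient.mk _ r, by rw [map_mul]⟩

theorem ann {a : ℕ} (ha : a ≤ m + 1) (y : Tr K m) :
    tt K m ^ a * y = 0 ↔ y ∈ I K m (m + 1 - a) := by
  obtain ⟨p, rfl⟩ := mk_surj y
  rw [mk_mem (Nat.sub_le _ _), tt_pow, ← map_mul, mk_zero]
  have h : (Polynomial.X : Polynomial K) ^ (m + 1) =
      Polynomial.X ^ a * Polynomial.X ^ (m + 1 - a) := by
    rw [← pow_add]
    congr 1
    omega
  rw [h]
  exact mul_dvd_mul_iff_left (pow_ne_zero _ Polynomial.X_ne_zero)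

theorem unit_of {j : ℕ} (hj : j ≤ m) {y : Tr K m} (h1 : y ∈ I K m j) (h2 : y ∉ I K m (j + 1)) :
    ∃ u v : Tr K m, u * v = 1 ∧ y = u * tt K m ^ j := by
  obtain ⟨p, rfl⟩ := mk_surj y
  rw [mk_mem (by omega)] at h1 h2
  obtain ⟨r, rfl⟩ := h1
  have h3 : ¬ (Polynomial.X : Polynomial K) ∣ r := by
    intro h
    apply h2
    rw [pow_succ]
    exact mul_dvd_mul_left _ h
  have h4 : IsCoprime (Polynomial.X : Polynomial K) r :=
    (Polynomial.irreducible_X.coprime_iff_not_dvd).2 h3
  have h5 : IsCoprime ((Polynomial.X : Polynomial K) ^ (m + 1)) r := h4.pow_left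
  obtain ⟨a, b, hab⟩ := h5
  refine ⟨Ideal.Quotient.mk _ r, Ideal.Quotient.mk _ b, ?_, ?_⟩
  · rw [← map_mul, ← map_one (Ideal.Quotient.mk _), ← sub_eq_zero, ← map_sub, mk_zero]
    refine ⟨-a, ?_⟩
    linear_combination hab
  · rw [map_mul, tt_pow, mul_comm]

theorem I_zero : I K m 0 = ⊤ := by
  rw [I, pow_zero, Ideal.span_singleton_one]

theorem I_last : I K m (m + 1) = ⊥ := by
  rw [I, Ideal.span_singleton_eq_bot, tt_pow, mk_zero]

theorem I_anti {i j : ℕ} (h : i ≤ j) : I K m j ≤ I K m i := by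
  rw [I, I, Ideal.span_singleton_le_span_singleton]
  exact pow_dvd_pow _ h

theorem mem_succ {j : ℕ} {y : Tr K m} (h : y ∈ I K m j) : tt K m * y ∈ I K m (j + 1) := by
  rw [I, Ideal.mem_span_singleton'] at h ⊢
  obtain ⟨a, rfl⟩ := h
  exact ⟨a, by ring⟩

end Basic

section Card

variable (K : Type) [Field K] [Finite K] (m : ℕ)

instance : Finite (Tr K m) := by
  have h : Module.Finite K (Polynomial K ⧸ Ideal.span {(Polynomial.X : Polynomial K) ^ (m + 1)}) :=
    (Polynomial.monic_X_pow (m + 1)).finite_quotient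
  exact Module.finite_of_finite K

omit [Finite K] in
theorem card_quot (n : ℕ) :
    Nat.card (Polynomial K ⧸ Ideal.span {(Polynomial.X : Polynomial K) ^ n}) = Nat.card K ^ n := by
  have h : Module.Finite K (Polynomial K ⧸ Ideal.span {(Polynomial.X : Polynomial K) ^ n}) :=
    (Polynomial.monic_X_pow n).finite_quotient
  have h2 := Module.natCard_eq_pow_finrank (K := K)
    (V := Polynomial K ⧸ Ideal.span {(Polynomial.X : Polynomial K) ^ n})
  rw [finrank_quotient_span_eq_natDegree, Polynomial.natDegree_X_pow] at h2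
  exact h2

omit [Finite K] in
theorem card_I' {j : ℕ} (hj : j ≤ m + 1) :
    Nat.card {y : Tr K m // y ∈ I K m j} = Nat.card K ^ (m + 1 - j) := by
  let φ : Polynomial K →ₗ[Polynomial K] Tr K m :=
    LinearMap.toSpanSingleton (Polynomial K) (Tr K m) (tt K m ^ j)
  have hφ : ∀ p, φ p = Ideal.Quotient.mk _ (p * Polynomial.X ^ j) := by
    intro p
    change p • (tt K m ^ j) = _
    rw [tt_pow]
    rfl
  have hker : LinearMap.ker φ = Ideal.span {(Polynomial.X : Polynomial K) ^ (m + 1 - j)} := by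
    ext p
    rw [LinearMap.mem_ker, hφ, mk_zero, Ideal.mem_span_singleton]
    have h : (Polynomial.X : Polynomial K) ^ (m + 1) =
        Polynomial.X ^ (m + 1 - j) * Polynomial.X ^ j := by
      rw [← pow_add]
      congr 1
      omega
    rw [h]
    exact mul_dvd_mul_iff_right (pow_ne_zero _ Polynomial.X_ne_zero)
  have hr : ∀ y : Tr K m, y ∈ I K m j ↔ y ∈ LinearMap.range φ := by
    intro y
    rw [I, Ideal.mem_span_singleton', LinearMap.mem_range]
    constructor
    · rintro ⟨a, rfl⟩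
      obtain ⟨p, rfl⟩ := mk_surj a
      exact ⟨p, by rw [hφ, map_mul, tt_pow]⟩
    · rintro ⟨p, rfl⟩
      exact ⟨Ideal.Quotient.mk _ p, by rw [hφ, map_mul, tt_pow]⟩
  have e1 : {y : Tr K m // y ∈ I K m j} ≃ LinearMap.range φ := Equiv.subtypeEquivRight hr
  have e2 := (φ.quotKerEquivRange).toEquiv
  have e3 := (Submodule.quotEquivOfEq _ _ hker).toEquiv
  rw [Nat.card_congr e1, ← Nat.card_congr e2, Nat.card_congr e3]
  exact card_quot K _

end Card

section Count

variable {K : Type} [Field K] [Finite K] {m : ℕ}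

noncomputable instance : Fintype (Tr K m) := Fintype.ofFinite _

open Classical in
/-- The elements of the ideal. -/
noncomputable def J (K : Type) [Field K] [Finite K] (m j : ℕ) : Finset (Tr K m) :=
  Finset.univ.filter (fun y => y ∈ I K m j)

theorem mem_J {j : ℕ} {y : Tr K m} : y ∈ J K m j ↔ y ∈ I K m j := by
  classical
  rw [J, Finset.mem_filter]
  exact ⟨fun h => h.2, fun h => ⟨Finset.mem_univ _, h⟩⟩

theorem card_J {j : ℕ} (hj : j ≤ m + 1) : (J K m j).card = Nat.card K ^ (m + 1 - j) := by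
  classical
  rw [← card_I' K m hj, J, Nat.card_eq_fintype_card, Fintype.card_subtype]

open Classical in
/-- The number of `l` in `(t)` with `w l = c`. -/
noncomputable def sol (w c : Tr K m) : ℤ := ∑ l ∈ J K m 1, if w * l = c then (1 : ℤ) else 0

theorem sol_card (w c : Tr K m) : by classical exact sol w c = (((J K m 1).filter fun l => w * l = c).card : ℤ) := by
  classical
  rw [sol, Finset.sum_boole]

theorem sol_eq {i : ℕ} (hi : i ≤ m) {w c : Tr K m} (h1 : w ∈ I K m i) (h2 : w ∉ I K m (i + 1))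
    (hc : c ∈ I K m (i + 1)) : sol w c = (Nat.card K : ℤ) ^ i := by
  classical
  obtain ⟨u, v, huv, rfl⟩ := unit_of hi h1 h2
  rw [I, Ideal.mem_span_singleton'] at hc
  obtain ⟨e, rfl⟩ := hc
  have h3 : ((J K m 1).filter fun l => u * tt K m ^ i * l = e * tt K m ^ (i + 1)).card =
      (J K m (m + 1 - i)).card := by
    have hl0 : v * e * tt K m ∈ I K m 1 := by
      rw [I, Ideal.mem_span_singleton', pow_one]
      exact ⟨v * e, rfl⟩
    refine Finset.card_nbij' (fun l => l - v * e * tt K m) (fun y => y + v * e * tt K m) ?_ ?_ ?_ ?_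
    · intro l hl
      rw [Finset.mem_coe, Finset.mem_filter, mem_J] at hl
      rw [Finset.mem_coe, mem_J, ← ann (by omega)]
      have h := hl.2
      calc tt K m ^ i * (l - v * e * tt K m)
          = (u * v) * (tt K m ^ i * l) - v * e * tt K m ^ (i + 1) +
            (1 - u * v) * (tt K m ^ i * l) := by ring
        _ = v * (u * tt K m ^ i * l - e * tt K m ^ (i + 1)) + (1 - u * v) * (tt K m ^ i * l) := by
            ring
        _ = 0 := by rw [h, huv]; ring
    · intro y hy
      rw [Finset.mem_coe, mem_J] at hy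
      rw [Finset.mem_coe, Finset.mem_filter, mem_J]
      refine ⟨Ideal.add_mem _ (I_anti (by omega) hy) hl0, ?_⟩
      rw [← ann (by omega)] at hy
      calc u * tt K m ^ i * (y + v * e * tt K m)
          = u * (tt K m ^ i * y) + (u * v) * (e * tt K m ^ (i + 1)) := by ring
        _ = e * tt K m ^ (i + 1) := by rw [hy, huv]; ring
    · intro l _
      simp
    · intro y _
      simp
  have h4 := sol_card (u * tt K m ^ i) (e * tt K m ^ (i + 1))
  rw [h4]
  rw [h3, card_J (by omega)]
  push_cast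
  congr 1
  omega

theorem sol_zero {i : ℕ} {w c : Tr K m} (h1 : w ∈ I K m i) (hc : c ∉ I K m (i + 1)) :
    sol w c = 0 := by
  classical
  rw [sol]
  refine Finset.sum_eq_zero fun l hl => ?_
  rw [if_neg]
  rintro rfl
  apply hc
  rw [mem_J] at hl
  rw [I, Ideal.mem_span_singleton'] at h1 hl ⊢
  obtain ⟨a, rfl⟩ := h1
  obtain ⟨b, rfl⟩ := hl
  exact ⟨a * b, by ring⟩

/-- The number of pairs with `w` in the `j`-th ideal. -/
noncomputable def G (j : ℕ) (c : Tr K m) : ℤ := ∑ w ∈ J K m j, sol w c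

theorem G_step {j : ℕ} (hj : j ≤ m) {c : Tr K m} (hc : c ∈ I K m (j + 1)) :
    G j c = ((Nat.card K : ℤ) - 1) * (Nat.card K : ℤ) ^ m + G (j + 1) c := by
  classical
  have hs : J K m (j + 1) ⊆ J K m j := by
    intro y hy
    rw [mem_J] at hy ⊢
    exact I_anti (by omega) hy
  rw [G, G, ← Finset.sum_sdiff hs]
  congr 1
  have h1 : ∀ w ∈ J K m j \ J K m (j + 1), sol w c = (Nat.card K : ℤ) ^ j := by
    intro w hw
    rw [Finset.mem_sdiff, mem_J, mem_J] at hw
    exact sol_eq hj hw.1 hw.2 hc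
  rw [Finset.sum_congr rfl h1, Finset.sum_const, nsmul_eq_mul,
    Finset.card_sdiff_of_subset hs, Nat.cast_sub (Finset.card_le_card hs), card_J (by omega),
    card_J (by omega)]
  push_cast
  have e1 : m + 1 - j = (m - j) + 1 := by omega
  have e2 : m + 1 - (j + 1) = m - j := by omega
  have e3 : (Nat.card K : ℤ) ^ m = (Nat.card K : ℤ) ^ (m - j) * (Nat.card K : ℤ) ^ j := by
    rw [← pow_add]
    congr 1
    omega
  rw [e1, e3]
  ring

theorem G_down (d : ℕ) : ∀ {k : ℕ}, k ≤ m + 1 → d ≤ k → ∀ {c : Tr K m}, c ∈ I K m k →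
    G (k - d) c = d * (((Nat.card K : ℤ) - 1) * (Nat.card K : ℤ) ^ m) + G k c := by
  induction d with
  | zero => intro k _ _ c _; simp
  | succ d ih =>
    intro k hk hd c hc
    have e : k - (d + 1) + 1 = k - d := by omega
    rw [G_step (j := k - (d + 1)) (by omega) (I_anti (by omega) hc), e, ih hk (by omega) hc]
    push_cast
    ring

theorem G_top {k : ℕ} {c : Tr K m} (hc : c ∉ I K m (k + 1)) : G k c = 0 := by
  rw [G]
  refine Finset.sum_eq_zero fun w hw => ?_
  rw [mem_J] at hw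
  exact sol_zero hw hc

theorem n_ord {k : ℕ} (h1 : 1 ≤ k) (hk : k ≤ m) {c : Tr K m} (hc : c ∈ I K m k)
    (hc' : c ∉ I K m (k + 1)) :
    G 1 c = ((k : ℤ) - 1) * (((Nat.card K : ℤ) - 1) * (Nat.card K : ℤ) ^ m) := by
  have h := G_down (k - 1) (k := k) (by omega) (by omega) hc
  rw [G_top hc', show k - (k - 1) = 1 by omega] at h
  rw [h, Nat.cast_sub h1]
  push_cast
  ring

theorem n_zero : G 1 (0 : Tr K m) = (m : ℤ) * (((Nat.card K : ℤ) - 1) * (Nat.card K : ℤ) ^ m) +
    (Nat.card K : ℤ) ^ m := by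
  classical
  have h := G_down m (k := m + 1) le_rfl (by omega) (c := (0 : Tr K m)) (Ideal.zero_mem _)
  rw [show m + 1 - m = 1 by omega] at h
  rw [h]
  congr 1
  have h2 : J K m (m + 1) = {0} := by
    ext y
    rw [mem_J, I_last, Finset.mem_singleton]
    exact Ideal.mem_bot
  rw [G, h2, Finset.sum_singleton, sol]
  simp only [zero_mul, if_true, Finset.sum_const, nsmul_eq_mul, mul_one]
  rw [card_J (by omega)]
  push_cast
  congr 1

open Classical in
/-- The number of pairs of the goal. -/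
theorem count (c : Tr K m) :
    (({p : Tr K m × Tr K m | p.1 ∈ Ideal.span {tt K m} ∧ p.2 ∈ Ideal.span {tt K m} ∧
      tt K m * (c + p.1 * p.2) = 0 ∧ c + p.1 * p.2 ≠ 0}.ncard : ℤ)) =
      ∑ d ∈ (J K m m).erase 0, G 1 (d - c) := by
  classical
  have h1 : {p : Tr K m × Tr K m | p.1 ∈ Ideal.span {tt K m} ∧ p.2 ∈ Ideal.span {tt K m} ∧
      tt K m * (c + p.1 * p.2) = 0 ∧ c + p.1 * p.2 ≠ 0} =
      (((J K m 1 ×ˢ J K m 1).filter fun p => c + p.1 * p.2 ∈ (J K m m).erase 0 :
        Finset (Tr K m × Tr K m)) : Set (Tr K m × Tr K m)) := by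
    ext p
    rw [Set.mem_ofPred_eq, Finset.mem_coe, Finset.mem_filter, Finset.mem_product, Finset.mem_erase,
      mem_J, mem_J, mem_J, I, pow_one]
    have h := ann (K := K) (m := m) (a := 1) (by omega) (c + p.1 * p.2)
    rw [pow_one, show m + 1 - 1 = m by omega] at h
    rw [h]
    tauto
  rw [h1, Set.ncard_coe_finset, Finset.card_filter, Nat.cast_sum, Finset.sum_product]
  simp only [G, sol]
  have h2 : ∀ w l d : Tr K m, (w * l = d - c) ↔ (c + w * l = d) := by
    intro w l d
    constructor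
    · intro h
      rw [h]
      ring
    · intro h
      rw [← h]
      ring
  symm
  rw [Finset.sum_comm]
  refine Finset.sum_congr rfl fun w _ => ?_
  rw [Finset.sum_comm]
  refine Finset.sum_congr rfl fun l _ => ?_
  simp only [h2]
  rw [Finset.sum_ite_eq ((J K m m).erase 0) (c + w * l) (fun _ => (1 : ℤ))]
  push_cast
  rfl

end Count

theorem t : Pool.Agent.Helper74.HG.WL := by
  classical
  intro K _ _ m hm c hc
  have hq : 1 ≤ Nat.card K := Nat.card_pos
  have hJm : (J K m m).card = Nat.card K := by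
    rw [card_J (by omega), show m + 1 - m = 1 by omega, pow_one]
  have h0 : (0 : Tr K m) ∈ J K m m := mem_J.2 (Ideal.zero_mem _)
  have hJe : (((J K m m).erase 0).card : ℤ) = (Nat.card K : ℤ) - 1 := by
    rw [Finset.card_erase_of_mem h0, hJm]
    push_cast [hq]
    ring
  have hord : ∀ y : Tr K m, y ∈ I K m m → y ≠ 0 → y ∉ I K m (m + 1) := by
    intro y _ hy hy'
    rw [I_last, Ideal.mem_bot] at hy'
    exact hy hy'
  refine ⟨?_, ?_, ?_⟩
  · intro k hk hkm h1 h2
    rw [count]
    have e1 : m + 1 - (m - k + 1) = k := by omega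
    have e2 : m + 1 - (m - k) = k + 1 := by omega
    rw [ann (by omega), e1] at h1
    rw [Ne, ann (by omega), e2] at h2
    have h3 : ∀ d ∈ (J K m m).erase 0, G 1 (d - c) =
        ((k : ℤ) - 1) * (((Nat.card K : ℤ) - 1) * (Nat.card K : ℤ) ^ m) := by
      intro d hd
      rw [Finset.mem_erase, mem_J] at hd
      refine n_ord hk (by omega) (Ideal.sub_mem _ (I_anti (by omega) hd.2) h1) ?_
      intro h4
      apply h2
      have h5 := Ideal.sub_mem _ (I_anti (by omega : k + 1 ≤ m) hd.2) h4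
      rwa [sub_sub_cancel] at h5
    rw [Finset.sum_congr rfl h3, Finset.sum_const, nsmul_eq_mul, hJe]
    ring
  · intro h1 h2
    rw [count]
    have h1' : c ∈ I K m m := by
      have h := ann (K := K) (m := m) (a := 1) (by omega) c
      rw [pow_one, show m + 1 - 1 = m by omega] at h
      exact h.1 h1
    have hcm : c ∈ (J K m m).erase 0 := Finset.mem_erase.2 ⟨h2, mem_J.2 h1'⟩
    rw [← Finset.add_sum_erase _ (fun d => G 1 (d - c)) hcm, sub_self, n_zero]
    have h3 : ∀ d ∈ ((J K m m).erase 0).erase c, G 1 (d - c) =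
        ((m : ℤ) - 1) * (((Nat.card K : ℤ) - 1) * (Nat.card K : ℤ) ^ m) := by
      intro d hd
      rw [Finset.mem_erase, Finset.mem_erase, mem_J] at hd
      have h4 : d - c ∈ I K m m := Ideal.sub_mem _ hd.2.2 h1'
      exact n_ord hm le_rfl h4 (hord _ h4 (sub_ne_zero.2 hd.1))
    have h5 : ((((J K m m).erase 0).erase c).card : ℤ) = (Nat.card K : ℤ) - 2 := by
      have h6 := Finset.card_erase_add_one hcm
      have h7 : (((((J K m m).erase 0).erase c).card : ℤ)) + 1 = (((J K m m).erase 0).card : ℤ) := by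
        exact_mod_cast h6
      rw [hJe] at h7
      linarith
    rw [Finset.sum_congr rfl h3, Finset.sum_const, nsmul_eq_mul, h5]
    ring
  · intro h1
    rw [count]
    have h3 : ∀ d ∈ (J K m m).erase 0, G 1 (d - c) =
        ((m : ℤ) - 1) * (((Nat.card K : ℤ) - 1) * (Nat.card K : ℤ) ^ m) := by
      intro d hd
      rw [Finset.mem_erase, mem_J] at hd
      rw [h1, sub_zero]
      exact n_ord hm le_rfl hd.2 (hord _ hd.2 hd.1)
    rw [Finset.sum_congr rfl h3, Finset.sum_const, nsmul_eq_mul, hJe]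
    ring

end Pool.Agent.Helper80.HG.WL
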