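import Pool.Agent.Helper74.HG.GoalsG
import Pool.Agent.Helper55.HG.CNK
import Pool.Agent.Helper80.HG.WL

/-! # HG-CNKG: the number of all arcs of `f + w l` on which it has order `m` -/

set_option autoImplicit false

namespace Pool.Agent.Helper80.HG.CNKG

open MvPolynomial Pool.Agent.Helper74.HG Pool.Agent.Helper80.HG.WL

open scoped Classical

/-- the pairs with the product `c` -/
def N (K : Type) [Field K] (m : ℕ) (c : Tr K m) : Set (Tr K m × Tr K m) :=
  {p : Tr K m × Tr K m | p.1 * p.2 = c}

/-- the pairs `(w, l)` for which `c + w l` has order `m` -/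
def Pr (K : Type) [Field K] (m : ℕ) (c : Tr K m) : Set (Tr K m × Tr K m) :=
  {p : Tr K m × Tr K m | tt K m * (c + p.1 * p.2) = 0 ∧ c + p.1 * p.2 ≠ 0}

section

variable {K : Type} [Field K] [Finite K] {m : ℕ}

theorem one_lt : 1 < Nat.card K := Finite.one_lt_card

theorem chw (h : CHW) :
    (∀ k, k < m + 1 → ∀ c : Tr K m, c ∈ I K m k → c ∉ I K m (k + 1) →
      ((N K m c).ncard : ℤ) = ((k : ℤ) + 1) * (((Nat.card K : ℤ) - 1) * (Nat.card K : ℤ) ^ m)) ∧
    ((N K m 0).ncard : ℤ) = ((m : ℤ) + 1) * (((Nat.card K : ℤ) - 1) * (Nat.card K : ℤ) ^ m) +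
      (Nat.card K : ℤ) ^ (m + 1) := by
  have h1 := h (Tr K m) (tt K m) (Nat.card K) (m + 1) (by omega) one_lt
    (fun k hk => by
      have := card_I' K m (j := k) hk
      exact this)
    (fun x => by
      by_cases h0 : x = 0
      · refine ⟨1, m + 1, le_rfl, ?_⟩
        have : tt K m ^ (m + 1) = 0 := Pool.Agent.Helper63.HG.CNT.tt_pow K m
        rw [this, mul_zero, h0]
      · have hex : ∃ j, x ∉ I K m j := ⟨m + 1, by rw [I_last]; simpa using h0⟩
        have hs := Nat.find_spec hex
        have hm : Nat.find hex ≤ m + 1 := Nat.find_min' hex (by rw [I_last]; simpa using h0)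
        have h0' : Nat.find hex ≠ 0 := by
          intro hz
          rw [hz, I_zero] at hs
          exact hs trivial
        have hp : x ∈ I K m (Nat.find hex - 1) := by
          have := Nat.find_min hex (m := Nat.find hex - 1) (by omega)
          exact not_not.1 this
        have hq : x ∉ I K m (Nat.find hex - 1 + 1) := by
          rw [Nat.sub_add_cancel (by omega)]
          exact hs
        obtain ⟨u, v, huv, hx⟩ := unit_of (by omega) hp hq
        exact ⟨⟨u, v, huv, by rw [mul_comm]; exact huv⟩, Nat.find hex - 1, by omega, hx⟩)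
  have hq1 : (((Nat.card K) ^ (m + 1) - (Nat.card K) ^ (m + 1 - 1) : ℕ) : ℤ) =
      ((Nat.card K : ℤ) - 1) * (Nat.card K : ℤ) ^ m := by
    rw [Nat.cast_sub (Nat.pow_le_pow_right (by have := one_lt (K := K); omega) (by omega))]
    push_cast
    ring
  refine ⟨fun k hk c h2 h3 => ?_, ?_⟩
  · have e := h1.1 k hk c h2 h3
    change (N K m c).ncard = _ at e
    rw [e, Nat.cast_mul, hq1]
    push_cast
    ring
  · have e := h1.2
    change (N K m 0).ncard = _ at e
    rw [e, Nat.cast_add, Nat.cast_mul, hq1]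
    push_cast
    ring

theorem Pr_eq (c : Tr K m) :
    ((Pr K m c).ncard : ℤ) = ∑ d ∈ (J K m m).erase 0, ((N K m (d - c)).ncard : ℤ) := by
  have hP : (Pr K m c).Finite := Set.toFinite _
  rw [Set.ncard_eq_toFinset_card _ hP,
    Finset.card_eq_sum_card_fiberwise (f := fun p : Tr K m × Tr K m => c + p.1 * p.2)
      (t := (J K m m).erase 0)]
  · push_cast
    refine Finset.sum_congr rfl fun d hd => ?_
    have hN : (N K m (d - c)).Finite := Set.toFinite _
    rw [Set.ncard_eq_toFinset_card _ hN]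
    congr 2
    ext p
    rw [Finset.mem_erase, mem_J] at hd
    simp only [Finset.mem_filter, Set.Finite.mem_toFinset]
    constructor
    · rintro ⟨-, h2⟩
      change p.1 * p.2 = d - c
      rw [← h2]
      ring
    · intro h2
      change p.1 * p.2 = d - c at h2
      have h3 : c + p.1 * p.2 = d := by rw [h2]; ring
      refine ⟨⟨?_, ?_⟩, h3⟩
      · rw [h3]
        have := (ann (K := K) (m := m) (a := 1) (by omega) d).2 (by simpa using hd.2)
        simpa using this
      · rw [h3]
        exact hd.1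
  · intro p hp
    simp only [Set.Finite.coe_toFinset] at hp
    obtain ⟨h1, h2⟩ := hp
    simp only [Finset.coe_erase, Set.mem_sdiff, Finset.mem_coe, Set.mem_singleton_iff]
    refine ⟨?_, h2⟩
    rw [mem_J]
    have := (ann (K := K) (m := m) (a := 1) (by omega) (c + p.1 * p.2)).1 (by simpa using h1)
    simpa using this

theorem card_er : (((J K m m).erase 0).card : ℤ) = (Nat.card K : ℤ) - 1 := by
  have h0 : (0 : Tr K m) ∈ J K m m := by
    rw [mem_J]
    exact Ideal.zero_mem _
  rw [Finset.card_erase_of_mem h0, card_J (by omega)]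
  have := one_lt (K := K)
  rw [Nat.cast_sub (by rw [Nat.add_sub_cancel_left, pow_one]; omega), Nat.add_sub_cancel_left,
    pow_one]
  simp

omit [Finite K] in
theorem not_last {d : Tr K m} (hd : d ≠ 0) : d ∉ I K m (m + 1) := by
  rw [I_last]
  simpa using hd

/-- value of order `k < m` -/
theorem Pr_lt (h : CHW) {k : ℕ} (hk : k < m) {c : Tr K m} (h1 : c ∈ I K m k)
    (h2 : c ∉ I K m (k + 1)) :
    ((Pr K m c).ncard : ℤ) = ((k : ℤ) + 1) * ((Nat.card K : ℤ) - 1) ^ 2 * (Nat.card K : ℤ) ^ m := by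
  rw [Pr_eq, Finset.sum_congr rfl (g := fun _ => ((k : ℤ) + 1) *
    (((Nat.card K : ℤ) - 1) * (Nat.card K : ℤ) ^ m)), Finset.sum_const, nsmul_eq_mul, card_er]
  · ring
  · intro d hd
    rw [Finset.mem_erase, mem_J] at hd
    refine (chw h).1 k (by omega) _ ?_ ?_
    · exact Ideal.sub_mem _ (I_anti (by omega : k ≤ m) hd.2) h1
    · intro h3
      have h4 := Ideal.sub_mem _ (I_anti (by omega : k + 1 ≤ m) hd.2) h3
      rw [sub_sub_cancel] at h4
      exact h2 h4

/-- value `0` -/
theorem Pr_zero (h : CHW) :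
    ((Pr K m 0).ncard : ℤ) = ((m : ℤ) + 1) * ((Nat.card K : ℤ) - 1) ^ 2 * (Nat.card K : ℤ) ^ m := by
  rw [Pr_eq, Finset.sum_congr rfl (g := fun _ => ((m : ℤ) + 1) *
    (((Nat.card K : ℤ) - 1) * (Nat.card K : ℤ) ^ m)), Finset.sum_const, nsmul_eq_mul, card_er]
  · ring
  · intro d hd
    rw [Finset.mem_erase, mem_J] at hd
    rw [sub_zero]
    exact (chw h).1 m (by omega) _ hd.2 (not_last hd.1)

/-- value of order `m` -/
theorem Pr_m (h : CHW) {c : Tr K m} (h1 : c ∈ I K m m) (h2 : c ≠ 0) :
    ((Pr K m c).ncard : ℤ) = (((m : ℤ) + 1) * ((Nat.card K : ℤ) - 1) ^ 2 + (Nat.card K : ℤ)) *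
      (Nat.card K : ℤ) ^ m := by
  rw [Pr_eq, Finset.sum_congr rfl (g := fun d => ((m : ℤ) + 1) *
    (((Nat.card K : ℤ) - 1) * (Nat.card K : ℤ) ^ m) +
      if d = c then (Nat.card K : ℤ) ^ (m + 1) else 0), Finset.sum_add_distrib,
    Finset.sum_const, nsmul_eq_mul, card_er, Finset.sum_ite_eq' _ c, if_pos]
  · ring
  · rw [Finset.mem_erase, mem_J]
    exact ⟨h2, h1⟩
  · intro d hd
    rw [Finset.mem_erase, mem_J] at hd
    by_cases hdc : d = c
    · rw [if_pos hdc, hdc, sub_self]
      exact (chw h).2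
    · rw [if_neg hdc, add_zero]
      exact (chw h).1 m (by omega) _ (Ideal.sub_mem _ hd.2 h1) (not_last (sub_ne_zero.2 hdc))

end

theorem cnt_eqG (K : Type) [Field K] [Finite K] {σ : Type} [Fintype σ] (f : MvPolynomial σ K)
    (m : ℕ) (hA : (Set.univ : Set (σ → Tr K m)).Finite) :
    cntG K (stabK f) m = ∑ x ∈ hA.toFinset, (Pr K m (aeval x f)).ncard := by
  have hJ : (JetG K (stabK f) m).Finite := Set.toFinite _
  unfold cntG
  rw [Set.ncard_eq_toFinset_card _ hJ]
  rw [Finset.card_eq_sum_card_fiberwise (f := fun y : Option (Option σ) → Tr K m =>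
    fun i => y (some (some i))) (t := hA.toFinset)]
  · refine Finset.sum_congr rfl fun x hx => ?_
    have hP : (Pr K m (aeval x f)).Finite := Set.toFinite _
    rw [Set.ncard_eq_toFinset_card _ hP]
    refine Finset.card_nbij' (fun y => (y none, y (some none)))
      (fun p => Pool.Agent.Helper63.HG.CNT.glue x p) ?_ ?_ ?_ ?_
    · intro y hy
      simp only [Finset.coe_filter, Set.Finite.mem_toFinset, Set.mem_ofPred_eq,
        Set.Finite.coe_toFinset] at hy ⊢
      obtain ⟨⟨h2, h3⟩, h4⟩ := hy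
      rw [Pool.Agent.Helper55.HG.CNK.aeval_stabK, h4] at h2 h3
      exact ⟨h2, h3⟩
    · intro p hp
      simp only [Finset.coe_filter, Set.Finite.mem_toFinset, Set.mem_ofPred_eq,
        Set.Finite.coe_toFinset] at hp ⊢
      obtain ⟨h3, h4⟩ := hp
      refine ⟨⟨?_, ?_⟩, rfl⟩
      · rw [Pool.Agent.Helper55.HG.CNK.aeval_stabK]
        exact h3
      · rw [Pool.Agent.Helper55.HG.CNK.aeval_stabK]
        exact h4
    · intro y hy
      simp only [Finset.coe_filter, Set.Finite.mem_toFinset, Set.mem_ofPred_eq] at hy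
      funext o
      rcases o with _ | _ | i
      · rfl
      · rfl
      · exact (congrFun hy.2 i).symm
    · intro p _
      rfl
  · intro y hy
    simp

theorem ord_iff {K : Type} [Field K] [Finite K] {m k : ℕ} (hk : k ≤ m) (c : Tr K m) :
    (tt K m ^ (m - k + 1) * c = 0 ↔ c ∈ I K m k) ∧
    (tt K m ^ (m - k) * c ≠ 0 ↔ c ∉ I K m (k + 1)) := by
  constructor
  · have := ann (K := K) (m := m) (a := m - k + 1) (by omega) c
    rw [show m + 1 - (m - k + 1) = k by omega] at this
    exact this
  · have := ann (K := K) (m := m) (a := m - k) (by omega) c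
    rw [show m + 1 - (m - k) = k + 1 by omega] at this
    exact not_congr this

theorem t (hl : LIKG) (hw : CHW) : Pool.Agent.Helper74.HG.CNKG := by
  intro K _ _ σ _ f m
  have hA : (Set.univ : Set (σ → Tr K m)).Finite := Set.toFinite _
  set q : ℤ := (Nat.card K : ℤ) with hq
  set F := hA.toFinset with hF
  have hcnt := cnt_eqG K f m hA
  have hAc : (F.card : ℤ) = q ^ (Fintype.card σ * (m + 1)) := by
    rw [hF, ← Set.ncard_eq_toFinset_card _ hA, Set.ncard_univ, (hl K σ).1 m]
    push_cast
    rfl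
  have hJ : ∀ k, k ≤ m → ((F.filter (fun x => x ∈ JetGO K f m k)).card : ℤ) =
      q ^ (Fintype.card σ * (m - k)) * cntG K f k := by
    intro k hk
    have h1 := (hl K σ).2 f m k hk
    have h2 : (F.filter (fun x => x ∈ JetGO K f m k)).card = (JetGO K f m k).ncard := by
      have hfin : (JetGO K f m k).Finite := Set.toFinite _
      rw [Set.ncard_eq_toFinset_card _ hfin]
      congr 1
      ext x
      simp only [hF, Finset.mem_filter, Set.Finite.mem_toFinset]
      exact ⟨fun h => h.2, fun h => ⟨trivial, h⟩⟩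
    rw [h2, h1]
    push_cast
    rfl
  have hmem : ∀ k, k ≤ m → ∀ x : σ → Tr K m, x ∈ JetGO K f m k ↔
      (aeval x f ∈ I K m k ∧ aeval x f ∉ I K m (k + 1)) := by
    intro k hk x
    exact and_congr (ord_iff hk _).1 (ord_iff hk _).2
  have hpt : ∀ x ∈ F, ((Pr K m (aeval x f)).ncard : ℤ) =
      q ^ m * (((m : ℤ) + 1) * (q - 1) ^ 2 + q * (if x ∈ JetGO K f m m then 1 else 0) -
        ∑ k ∈ Finset.range m, ((m : ℤ) - k) * (q - 1) ^ 2 *
          (if x ∈ JetGO K f m k then 1 else 0)) := by
    intro x _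
    by_cases h0 : aeval x f = 0
    · have hno : ∀ k, k ≤ m → x ∉ JetGO K f m k := by
        intro k hk h
        rw [hmem k hk, h0] at h
        exact h.2 (Ideal.zero_mem _)
      rw [h0, Pr_zero hw, if_neg (hno m le_rfl),
        Finset.sum_eq_zero (fun k hk => by
          rw [if_neg (hno k (Finset.mem_range.1 hk).le), mul_zero])]
      ring
    · have hex : ∃ j, aeval x f ∉ I K m j := ⟨m + 1, not_last h0⟩
      have hs := Nat.find_spec hex
      have hm : Nat.find hex ≤ m + 1 := Nat.find_min' hex (not_last h0)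
      have h0' : Nat.find hex ≠ 0 := by
        intro hz
        rw [hz, I_zero] at hs
        exact hs trivial
      obtain ⟨k, hk⟩ : ∃ k, Nat.find hex = k + 1 := ⟨Nat.find hex - 1, by omega⟩
      have hkm : k ≤ m := by omega
      have hp : aeval x f ∈ I K m k := not_not.1 (Nat.find_min hex (m := k) (by omega))
      have hq2 : aeval x f ∉ I K m (k + 1) := by
        rw [← hk]
        exact hs
      have hin : x ∈ JetGO K f m k := (hmem k hkm x).2 ⟨hp, hq2⟩
      have hne : ∀ k', k' ≤ m → k' ≠ k → x ∉ JetGO K f m k' := by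
        intro k' hk' hkk h
        rw [hmem k' hk'] at h
        rcases Nat.lt_or_ge k' k with hlt | hge
        · exact h.2 (I_anti (by omega : k' + 1 ≤ k) hp)
        · exact hq2 (I_anti (by omega : k + 1 ≤ k') h.1)
      rcases Nat.lt_or_ge k m with hlt | hge
      · rw [Pr_lt hw hlt hp hq2, if_neg (hne m le_rfl (by omega)), Finset.sum_eq_single k,
          if_pos hin]
        · ring
        · intro b hb hbk
          rw [if_neg (hne b (Finset.mem_range.1 hb).le hbk), mul_zero]
        · intro h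
          exact absurd (Finset.mem_range.2 hlt) h
      · have hkm' : k = m := by omega
        subst hkm'
        rw [Pr_m hw hp h0, if_pos hin, Finset.sum_eq_zero]
        · ring
        · intro b hb
          have hb' := Finset.mem_range.1 hb
          rw [if_neg (hne b hb'.le (by omega)), mul_zero]
  have hsum : (cntG K (stabK f) m : ℤ) = ∑ x ∈ F, ((Pr K m (aeval x f)).ncard : ℤ) := by
    rw [hcnt]
    push_cast
    rfl
  rw [hsum, Finset.sum_congr rfl hpt, ← Finset.mul_sum, Finset.sum_sub_distrib,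
    Finset.sum_add_distrib, Finset.sum_const, nsmul_eq_mul, hAc, ← Finset.mul_sum,
    Finset.sum_comm]
  congr 1
  have e1 : ∑ x ∈ F, (if x ∈ JetGO K f m m then (1 : ℤ) else 0) = cntG K f m := by
    rw [← Finset.sum_filter, Finset.sum_const, nsmul_eq_mul, mul_one, hJ m le_rfl]
    simp
  have e2 : ∀ k ∈ Finset.range m, ∑ x ∈ F, ((m : ℤ) - k) * (q - 1) ^ 2 *
      (if x ∈ JetGO K f m k then (1 : ℤ) else 0) =
      ((m : ℤ) - k) * (q - 1) ^ 2 * q ^ (Fintype.card σ * (m - k)) * cntG K f k := by
    intro k hk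
    rw [← Finset.mul_sum, ← Finset.sum_filter, Finset.sum_const, nsmul_eq_mul, mul_one,
      hJ k (Finset.mem_range.1 hk).le]
    ring
  rw [e1, Finset.sum_congr rfl e2]
  ring

end Pool.Agent.Helper80.HG.CNKG
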